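import Pool.Agent.helper61.DP.SpecA

/-!
# Project dp, module OU: the outer neighbour is adjacent and preserves arcs
-/

namespace DP

theorem OU_bd {x u : V} {n : ℕ} (hu : u ∈ bd x n) :
    ((u.1 - x.1 ≤ n ∧ x.1 - u.1 ≤ n) ∧ (u.2 - x.2 ≤ n ∧ x.2 - u.2 ≤ n)) ∧
      (u.1 = x.1 + n ∨ u.1 = x.1 - n ∨ u.2 = x.2 + n ∨ u.2 = x.2 - n) := by
  simp only [bd, sd, Set.mem_ofPred_eq] at hu
  omega

theorem OU_bd' {x u : V} {n : ℕ} (h : ((u.1 - x.1 ≤ n ∧ x.1 - u.1 ≤ n) ∧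
    (u.2 - x.2 ≤ n ∧ x.2 - u.2 ≤ n)) ∧
      (u.1 = x.1 + n ∨ u.1 = x.1 - n ∨ u.2 = x.2 + n ∨ u.2 = x.2 - n)) : u ∈ bd x n := by
  simp only [bd, sd, Set.mem_ofPred_eq]
  omega

theorem OU_mem {x u : V} {n : ℕ} (hn : 1 ≤ n) (hu : u ∈ bd x n) : ou x n u ∈ bd x (n + 1) := by
  have h := OU_bd hu
  apply OU_bd'
  unfold ou
  dsimp only
  push_cast
  split_ifs <;> omega

theorem OU_adj {x u : V} {n : ℕ} (he : Even (x.1 + x.2)) (hu : u ∈ bd x n) :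
    Adj u (ou x n u) := by
  have h := OU_bd hu
  rw [Int.even_iff] at he
  rw [adj_iff]
  unfold ou
  dsimp only
  split_ifs <;> omega

/-- positions after the passage to the next circle -/
def OU_sg (n : ℕ) (p : ℤ) : ℤ :=
  if p < 2 * n then p + 1 else if p = 2 * n then p + 2 else if p < 4 * n then p + 3
    else if p = 4 * n then p + 4 else if p < 6 * n then p + 5 else if p = 6 * n then p + 6
    else if p < 8 * n then p + 7 else p + 8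

theorem OU_sg_le (n : ℕ) (p q : ℤ) : OU_sg n p ≤ OU_sg n q ↔ p ≤ q := by
  unfold OU_sg
  split_ifs <;> omega

theorem OU_pos_cases (x u : V) (n : ℕ) :
    ((u.1 - x.1 = n ∧ -(n : ℤ) < u.2 - x.2) ∧ pos x n u = n + (u.2 - x.2)) ∨
    (¬ (u.1 - x.1 = n ∧ -(n : ℤ) < u.2 - x.2) ∧ u.2 - x.2 = n ∧ pos x n u = 3 * n - (u.1 - x.1)) ∨
    (¬ (u.1 - x.1 = n ∧ -(n : ℤ) < u.2 - x.2) ∧ ¬ (u.2 - x.2 = n) ∧ u.1 - x.1 = -(n : ℤ) ∧
      pos x n u = 5 * n - (u.2 - x.2)) ∨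
    (¬ (u.1 - x.1 = n ∧ -(n : ℤ) < u.2 - x.2) ∧ ¬ (u.2 - x.2 = n) ∧ ¬ (u.1 - x.1 = -(n : ℤ)) ∧
      pos x n u = 7 * n + (u.1 - x.1)) := by
  unfold pos
  split_ifs with h1 h2 h3
  · exact Or.inl ⟨h1, rfl⟩
  · exact Or.inr (Or.inl ⟨h1, h2, rfl⟩)
  · exact Or.inr (Or.inr (Or.inl ⟨h1, h2, h3, rfl⟩))
  · exact Or.inr (Or.inr (Or.inr ⟨h1, h2, h3, rfl⟩))

theorem OU_pos {x u : V} {n : ℕ} (hn : 1 ≤ n) (hu : u ∈ bd x n) :
    pos x (n + 1) (ou x n u) = OU_sg n (pos x n u) := by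
  have h := OU_bd hu
  have h1 := OU_pos_cases x u n
  have h2 := OU_pos_cases x (ou x n u) (n + 1)
  have h3 : (u.1 = x.1 + n ∧ (ou x n u).1 = u.1 + 1) ∨ (u.1 = x.1 - n ∧ (ou x n u).1 = u.1 - 1) ∨
      (u.1 ≠ x.1 + n ∧ u.1 ≠ x.1 - n ∧ (ou x n u).1 = u.1) := by
    unfold ou
    dsimp only
    split_ifs <;> omega
  have h4 : (u.2 = x.2 + n ∧ (ou x n u).2 = u.2 + 1) ∨ (u.2 = x.2 - n ∧ (ou x n u).2 = u.2 - 1) ∨
      (u.2 ≠ x.2 + n ∧ u.2 ≠ x.2 - n ∧ (ou x n u).2 = u.2) := by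
    unfold ou
    dsimp only
    split_ifs <;> omega
  generalize pos x (n + 1) (ou x n u) = q at h2 ⊢
  generalize pos x n u = p at h1 ⊢
  generalize ou x n u = w at h2 h3 h4
  push_cast at h2
  unfold OU_sg
  rcases h3 with h3 | h3 | h3 <;> rcases h4 with h4 | h4 | h4 <;>
    rcases h1 with h1 | h1 | h1 | h1 <;> rcases h2 with h2 | h2 | h2 | h2 <;>
      omega

theorem OU_arc {x u v w : V} {n : ℕ} (hn : 1 ≤ n) (hu : u ∈ bd x n) (hv : v ∈ bd x n)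
    (hw : w ∈ bd x n) : onArc x n u v w ↔ onArc x (n + 1) (ou x n u) (ou x n v) (ou x n w) := by
  unfold onArc
  rw [OU_pos hn hu, OU_pos hn hv, OU_pos hn hw]
  simp only [OU_sg_le, hu, hv, hw, OU_mem hn hu, OU_mem hn hv, OU_mem hn hw, true_and]

theorem OU_inj {x u v : V} {n : ℕ} (hu : u ∈ bd x n) (hv : v ∈ bd x n)
    (h : ou x n u = ou x n v) : u = v := by
  have h1 := OU_bd hu
  have h2 := OU_bd hv
  unfold ou at h
  rw [Prod.mk.injEq] at h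
  obtain ⟨ha, hb⟩ := h
  apply Prod.ext
  · clear hb
    split_ifs at ha <;> omega
  · clear ha
    split_ifs at hb <;> omega

theorem OU : OU_stmt :=
  ⟨fun _ _ _ he hn hu => ⟨OU_mem hn hu, OU_adj he hu⟩,
    fun _ _ _ _ _ hn hu hv hw _ _ _ => OU_arc hn hu hv hw,
    fun _ _ _ _ _ hu hv h => OU_inj hu hv h⟩

end DP
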