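import Pool.Agent.helper96.DP.API
import Pool.Agent.helper95.DP.Fin

/-!
# Project dp, module BGEN: generalised FKG inequality for the pair measure

One induction over the sites with the one-site formula `ex2_site` and the FKG inequality on the
four point lattice `Bool × Bool`.
-/

namespace DP

/-- FKG for one site. -/
theorem Bgen_four (r : ℝ) (F G : Bool × Bool → ℝ) (hF : ∀ a b, a ≤ b → F a ≤ F b)
    (hG : ∀ a b, a ≤ b → G a ≤ G b) :
    (∑ a, wt r a * F a) * (∑ a, wt r a * G a) ≤ ∑ a, wt r a * (F a * G a) := by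
  have c0 : 0 ≤ clip r := clip_nonneg r
  have c1 : clip r ≤ 1 := clip_le_one r
  simp only [Fintype.sum_prod_type, Fintype.sum_bool, wt_eq]
  simp only [if_true, reduceCtorEq, if_false, mul_zero, zero_add]
  have f1 := hF (false, false) (true, false) (by decide)
  have f2 := hF (false, false) (false, true) (by decide)
  have f3 := hF (true, false) (true, true) (by decide)
  have f4 := hF (false, true) (true, true) (by decide)
  have g1 := hG (false, false) (true, false) (by decide)
  have g2 := hG (false, false) (false, true) (by decide)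
  have g3 := hG (true, false) (true, true) (by decide)
  have g4 := hG (false, true) (true, true) (by decide)
  generalize F (true, true) = x at *
  generalize F (true, false) = y at *
  generalize F (false, true) = z at *
  generalize F (false, false) = t at *
  generalize G (true, true) = X at *
  generalize G (true, false) = Y at *
  generalize G (false, true) = Z at *
  generalize G (false, false) = T at *
  generalize clip r = c at *
  have h1 : -((x - t) * (X - T)) ≤ (y - z) * (Y - Z) := by
    have ha : |y - z| ≤ x - t := abs_le.2 ⟨by linarith, by linarith⟩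
    have hb : |Y - Z| ≤ X - T := abs_le.2 ⟨by linarith, by linarith⟩
    have hc : |(y - z) * (Y - Z)| ≤ (x - t) * (X - T) := by
      rw [abs_mul]
      exact mul_le_mul ha hb (abs_nonneg _) (by linarith)
    exact (abs_le.1 hc).1
  have h2 : 0 ≤ (x - t) * (X - T) := mul_nonneg (by linarith) (by linarith)
  have h3 : 0 ≤ (x - y) * (X - Y) + (x - z) * (X - Z) + (y - t) * (Y - T) + (z - t) * (Z - T) := by
    have := mul_nonneg (sub_nonneg.2 f3) (sub_nonneg.2 g3)
    have := mul_nonneg (sub_nonneg.2 f4) (sub_nonneg.2 g4)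
    have := mul_nonneg (sub_nonneg.2 f1) (sub_nonneg.2 g1)
    have := mul_nonneg (sub_nonneg.2 f2) (sub_nonneg.2 g2)
    linarith
  have hp : 0 ≤ (1 - c) / 2 + c / 4 := by linarith
  have hq : 0 ≤ c / 4 := by linarith
  have e : (((1 - c) * (1 / 2) + c / 4) * (x * X) + c / 4 * (y * Y) +
      (c / 4 * (z * Z) + ((1 - c) * (1 / 2) + c / 4) * (t * T))) -
      (((1 - c) * (1 / 2) + c / 4) * x + c / 4 * y +
        (c / 4 * z + ((1 - c) * (1 / 2) + c / 4) * t)) *
      (((1 - c) * (1 / 2) + c / 4) * X + c / 4 * Y +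
        (c / 4 * Z + ((1 - c) * (1 / 2) + c / 4) * T)) =
      (((1 - c) / 2 + c / 4) ^ 2 - (c / 4) ^ 2) * ((x - t) * (X - T)) +
      (c / 4) ^ 2 * ((y - z) * (Y - Z) + (x - t) * (X - T)) +
      ((1 - c) / 2 + c / 4) * (c / 4) * ((x - y) * (X - Y) + (x - z) * (X - Z) +
        (y - t) * (Y - T) + (z - t) * (Z - T)) := by ring
  have k1 : 0 ≤ (((1 - c) / 2 + c / 4) ^ 2 - (c / 4) ^ 2) * ((x - t) * (X - T)) := by
    refine mul_nonneg ?_ h2
    have : ((1 - c) / 2 + c / 4) ^ 2 - (c / 4) ^ 2 = (1 - c) / 2 * ((1 - c) / 2 + c / 2) := by ring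
    rw [this]
    exact mul_nonneg (by linarith) (by linarith)
  have k2 : 0 ≤ (c / 4) ^ 2 * ((y - z) * (Y - Z) + (x - t) * (X - T)) :=
    mul_nonneg (sq_nonneg _) (by linarith)
  have k3 := mul_nonneg (mul_nonneg hp hq) h3
  linarith

/-- The function does not depend on the sites in `T`. -/
def Bgen_Ind (T : Set V) (h : (V → Bool × Bool) → ℝ) : Prop :=
  ∀ w, ∀ v ∈ T, ∀ a, h (Function.update w v a) = h w

/-- Increasing in the sites of `T`. -/
def Bgen_Inc (T : Set V) (h : (V → Bool × Bool) → ℝ) : Prop :=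
  ∀ w w', (∀ v, w v ≤ w' v) → (∀ v, v ∉ T → w v = w' v) → h w ≤ h w'

theorem Bgen_Ind.upd {T : Set V} {h : (V → Bool × Bool) → ℝ} (hh : Bgen_Ind T h) (v : V)
    (a : Bool × Bool) : Bgen_Ind T (upd h v a) := by
  intro w u hu b
  unfold DP.upd
  by_cases huv : u = v
  · subst huv
    rw [Function.update_idem]
  · rw [Function.update_comm huv, hh _ u hu]

theorem Bgen_Inc.upd {T : Set V} {h : (V → Bool × Bool) → ℝ} (hh : Bgen_Inc T h) (v : V)
    (a : Bool × Bool) : Bgen_Inc T (upd h v a) := by
  intro w w' h1 h2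
  unfold DP.upd
  refine hh _ _ (fun u => ?_) (fun u hu => ?_)
  · by_cases huv : u = v
    · subst huv
      rw [Function.update_self, Function.update_self]
    · rw [Function.update_of_ne huv, Function.update_of_ne huv]
      exact h1 u
  · by_cases huv : u = v
    · subst huv
      rw [Function.update_self, Function.update_self]
    · rw [Function.update_of_ne huv, Function.update_of_ne huv]
      exact h2 u hu

theorem Bgen_Ind.eq {T : Set V} {h : (V → Bool × Bool) → ℝ} (hh : Bgen_Ind T h) {v : V}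
    (hv : v ∈ T) (a : Bool × Bool) : DP.upd h v a = h := funext fun w => hh w v hv a

theorem Bgen_Inc.le {T : Set V} {h : (V → Bool × Bool) → ℝ} (hh : Bgen_Inc T h) {v : V}
    (hv : v ∈ T) {a b : Bool × Bool} (hab : a ≤ b) (w : V → Bool × Bool) :
    DP.upd h v a w ≤ DP.upd h v b w := by
  unfold DP.upd
  refine hh _ _ (fun u => ?_) (fun u hu => ?_)
  · by_cases huv : u = v
    · subst huv
      rw [Function.update_self, Function.update_self]
      exact hab
    · rw [Function.update_of_ne huv, Function.update_of_ne huv]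
  · have huv : u ≠ v := fun h => hu (h ▸ hv)
    rw [Function.update_of_ne huv, Function.update_of_ne huv]

/-- The generalised FKG inequality for functions of pairs (`gp` and `gm` are minus the decreasing
functions). -/
theorem Bgen_ex2 (ρ : V → ℝ) (Sp Sm : Set V) (hd : Disjoint Sp Sm) (Λ : Finset V) :
    ∀ hp hm kp km : (V → Bool × Bool) → ℝ, LF Λ hp → LF Λ hm → LF Λ kp → LF Λ km →
      (∀ w, 0 ≤ hp w) → (∀ w, 0 ≤ hm w) → (∀ w, 0 ≤ kp w) → (∀ w, 0 ≤ km w) →
      Bgen_Ind Sm hp → Bgen_Ind Sp hm → Bgen_Ind Spᶜ kp → Bgen_Ind Smᶜ km →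
      Bgen_Inc Sp hp → Bgen_Inc Sp kp → Bgen_Inc Sm (fun w => - hm w) →
      Bgen_Inc Sm (fun w => - km w) →
      ex2 ρ (fun w => hp w * hm w) * (ex2 ρ kp * ex2 ρ km) ≤
        ex2 ρ (fun w => hp w * hm w * (kp w * km w)) := by
  classical
  induction Λ using Finset.induction_on with
  | empty =>
    intro hp hm kp km lp lm lkp lkm _ _ _ _ _ _ _ _ _ _ _ _
    have e1 : hp = fun _ => hp (fun _ => (false, false)) := funext fun w => lp.empty _ _
    have e2 : hm = fun _ => hm (fun _ => (false, false)) := funext fun w => lm.empty _ _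
    have e3 : kp = fun _ => kp (fun _ => (false, false)) := funext fun w => lkp.empty _ _
    have e4 : km = fun _ => km (fun _ => (false, false)) := funext fun w => lkm.empty _ _
    rw [e1, e2, e3, e4]
    simp only [ex2_const]
    exact le_rfl
  | insert v s hv ih =>
    intro hp hm kp km lp lm lkp lkm np nm nkp nkm ip im ikp ikm mp mkp mm mkm
    have hup : ∀ (f : (V → Bool × Bool) → ℝ) (a : Bool × Bool) w, upd f v a w = f (Function.update w v a) :=
      fun _ _ _ => rfl
    -- the one-site formulas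
    have lhm : LF (insert v s) (fun w => hp w * hm w) := lp.comp₂ lm (· * ·)
    have lkk : LF (insert v s) (fun w => kp w * km w) := lkp.comp₂ lkm (· * ·)
    have hall : LF (insert v s) (fun w => hp w * hm w * (kp w * km w)) := lhm.comp₂ lkk (· * ·)
    have s1 : ex2 ρ (fun w => hp w * hm w) =
        ∑ a, wt (ρ v) a * ex2 ρ (fun w => upd hp v a w * upd hm v a w) := ex2_site ρ lhm v
    have s2 : ex2 ρ (fun w => hp w * hm w * (kp w * km w)) =
        ∑ a, wt (ρ v) a * ex2 ρ (fun w => upd hp v a w * upd hm v a w *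
          (upd kp v a w * upd km v a w)) := ex2_site ρ hall v
    have s3 : ex2 ρ kp = ∑ a, wt (ρ v) a * ex2 ρ (upd kp v a) := ex2_site ρ lkp v
    have s4 : ex2 ρ km = ∑ a, wt (ρ v) a * ex2 ρ (upd km v a) := ex2_site ρ lkm v
    have hmm : ∀ a, Bgen_Inc Sm (fun w => - upd hm v a w) := fun a => mm.upd v a
    have hmkm : ∀ a, Bgen_Inc Sm (fun w => - upd km v a w) := fun a => mkm.upd v a
    have IH : ∀ a, ex2 ρ (fun w => upd hp v a w * upd hm v a w) *
        (ex2 ρ (upd kp v a) * ex2 ρ (upd km v a)) ≤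
        ex2 ρ (fun w => upd hp v a w * upd hm v a w * (upd kp v a w * upd km v a w)) := fun a =>
      ih (upd hp v a) (upd hm v a) (upd kp v a) (upd km v a) (lp.upd a) (lm.upd a) (lkp.upd a)
        (lkm.upd a) (fun w => np _) (fun w => nm _) (fun w => nkp _) (fun w => nkm _)
        (ip.upd v a) (im.upd v a) (ikp.upd v a) (ikm.upd v a) (mp.upd v a) (mkp.upd v a)
        (hmm a) (hmkm a)
    have hsum : ∑ a, wt (ρ v) a * (ex2 ρ (fun w => upd hp v a w * upd hm v a w) *
        (ex2 ρ (upd kp v a) * ex2 ρ (upd km v a))) ≤ ex2 ρ (fun w => hp w * hm w * (kp w * km w)) := by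
      rw [s2]
      exact Finset.sum_le_sum fun a _ => mul_le_mul_of_nonneg_left (IH a) (wt_nonneg _ _)
    refine le_trans ?_ hsum
    have nkm' : 0 ≤ ex2 ρ km := ex2_nonneg ρ nkm
    have nkp' : 0 ≤ ex2 ρ kp := ex2_nonneg ρ nkp
    by_cases hvp : v ∈ Sp
    · have hvm : v ∈ Smᶜ := fun h => (Set.disjoint_left.1 hd hvp) h
      have e1 : ∀ a, upd hm v a = hm := fun a => im.eq hvp a
      have e2 : ∀ a, upd km v a = km := fun a => ikm.eq hvm a
      simp only [e1, e2] at s1 ⊢
      have h4 := Bgen_four (ρ v) (fun a => ex2 ρ (fun w => upd hp v a w * hm w))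
        (fun a => ex2 ρ (upd kp v a)) (fun a b hab => by
          refine ex2_mono (Λ := insert v s) ρ ?_ ?_ fun w =>
            mul_le_mul_of_nonneg_right (mp.le hvp hab w) (nm w)
          · exact ((lp.upd a).mono (Finset.subset_insert _ _)).comp₂ lm (· * ·)
          · exact ((lp.upd b).mono (Finset.subset_insert _ _)).comp₂ lm (· * ·))
        (fun a b hab => ex2_mono ρ (lkp.upd a) (lkp.upd b) fun w => mkp.le hvp hab w)
      rw [s1, s3]
      calc _ = ((∑ a, wt (ρ v) a * ex2 ρ (fun w => upd hp v a w * hm w)) *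
            ∑ a, wt (ρ v) a * ex2 ρ (upd kp v a)) * ex2 ρ km := by ring
        _ ≤ (∑ a, wt (ρ v) a * (ex2 ρ (fun w => upd hp v a w * hm w) * ex2 ρ (upd kp v a))) *
            ex2 ρ km := mul_le_mul_of_nonneg_right h4 nkm'
        _ = _ := by
            rw [Finset.sum_mul]
            exact Finset.sum_congr rfl fun a _ => by ring
    · have hvp' : v ∈ Spᶜ := hvp
      have e3 : ∀ a, upd kp v a = kp := fun a => ikp.eq hvp' a
      by_cases hvm : v ∈ Sm
      · have e1 : ∀ a, upd hp v a = hp := fun a => ip.eq hvm a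
        simp only [e1, e3] at s1 ⊢
        have h4 := Bgen_four (ρ v) (fun a => - ex2 ρ (fun w => hp w * upd hm v a w))
          (fun a => - ex2 ρ (upd km v a)) (fun a b hab => by
            refine neg_le_neg (ex2_mono (Λ := insert v s) ρ ?_ ?_ fun w => ?_)
            · exact lp.comp₂ ((lm.upd b).mono (Finset.subset_insert _ _)) (· * ·)
            · exact lp.comp₂ ((lm.upd a).mono (Finset.subset_insert _ _)) (· * ·)
            · have := mm.le hvm hab w
              exact mul_le_mul_of_nonneg_left (by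
                have h := mm.le hvm hab w
                unfold DP.upd at h ⊢
                linarith) (np w))
          (fun a b hab => by
            refine neg_le_neg (ex2_mono ρ (lkm.upd b) (lkm.upd a) fun w => ?_)
            have h := mkm.le hvm hab w
            unfold DP.upd at h ⊢
            linarith)
        rw [s1, s4]
        have h5 : (∑ a, wt (ρ v) a * ex2 ρ (fun w => hp w * upd hm v a w)) *
            (∑ a, wt (ρ v) a * ex2 ρ (upd km v a)) ≤
            ∑ a, wt (ρ v) a * (ex2 ρ (fun w => hp w * upd hm v a w) * ex2 ρ (upd km v a)) := by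
          simpa only [mul_neg, Finset.sum_neg_distrib, neg_mul, neg_neg] using h4
        calc _ = ((∑ a, wt (ρ v) a * ex2 ρ (fun w => hp w * upd hm v a w)) *
              ∑ a, wt (ρ v) a * ex2 ρ (upd km v a)) * ex2 ρ kp := by ring
          _ ≤ (∑ a, wt (ρ v) a * (ex2 ρ (fun w => hp w * upd hm v a w) * ex2 ρ (upd km v a))) *
              ex2 ρ kp := mul_le_mul_of_nonneg_right h5 nkp'
          _ = _ := by
              rw [Finset.sum_mul]
              exact Finset.sum_congr rfl fun a _ => by ring
      · have hvm' : v ∈ Smᶜ := hvm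
        have e4 : ∀ a, upd km v a = km := fun a => ikm.eq hvm' a
        simp only [e3, e4]
        rw [s1, Finset.sum_mul]
        exact Finset.sum_le_sum fun a _ => le_of_eq (by ring)

theorem Bgen_Inc_pair {F : Set (V → Bool)} (hF : Mon true F) (T : Set V) :
    Bgen_Inc T (fun w => ind F (fun v => (w v).1) * ind F (fun v => (w v).2)) := by
  intro w w' h1 _
  have m : ∀ b b' : V → Bool, (∀ v, b v ≤ b' v) → ind F b ≤ ind F b' := by
    intro b b' hb
    by_cases h : b ∈ F
    · rw [ind_of_mem h, ind_of_mem (hF b b' (fun v hv => ?_) h)]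
      have := hb v
      rw [hv] at this
      exact Bool.eq_true_of_true_le this
    · rw [ind_of_notMem h]
      exact ind_nonneg _ _
  exact mul_le_mul (m _ _ fun v => (h1 v).1) (m _ _ fun v => (h1 v).2) (ind_nonneg _ _)
    (ind_nonneg _ _)

theorem Bgen_Inc_pair' {F : Set (V → Bool)} (hF : Mon false F) (T : Set V) :
    Bgen_Inc T (fun w => - (ind F (fun v => (w v).1) * ind F (fun v => (w v).2))) := by
  intro w w' h1 _
  have m : ∀ b b' : V → Bool, (∀ v, b v ≤ b' v) → ind F b' ≤ ind F b := by
    intro b b' hb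
    by_cases h : b' ∈ F
    · rw [ind_of_mem h, ind_of_mem (hF b' b (fun v hv => ?_) h)]
      have := hb v
      rw [hv] at this
      exact Bool.eq_false_of_le_false this
    · rw [ind_of_notMem h]
      exact ind_nonneg _ _
  exact neg_le_neg (mul_le_mul (m _ _ fun v => (h1 v).1) (m _ _ fun v => (h1 v).2)
    (ind_nonneg _ _) (ind_nonneg _ _))

theorem Bgen_Ind_pair {F : Set (V → Bool)} {A : Finset V} (hF : Dep F (A : Set V)) {T : Set V}
    (hT : ∀ v ∈ T, v ∉ A) :
    Bgen_Ind T (fun w => ind F (fun v => (w v).1) * ind F (fun v => (w v).2)) := by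
  intro w v hv a
  show ind F (fun u => (Function.update w v a u).1) * ind F (fun u => (Function.update w v a u).2) = _
  rw [upd_fst, upd_snd, hF.lf.update_eq (hT v hv), hF.lf.update_eq (hT v hv)]

theorem Bgen : Bgen_stmt := by
  classical
  intro ρ Ep Em Up Um S Sp Sm hSp hSm hpm lEp lEm lUp lUm mEp mEm mUp mUm
  obtain ⟨A, hA, dA⟩ := lEp
  obtain ⟨B, hB, dB⟩ := lEm
  obtain ⟨C, hC, dC⟩ := lUp
  obtain ⟨D, hD, dD⟩ := lUm
  set Λ : Finset V := A ∪ B ∪ (C ∪ D) with hΛ
  have sA : (A : Set V) ⊆ Λ := by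
    rw [hΛ]; push_cast
    exact Set.subset_union_left.trans Set.subset_union_left
  have sB : (B : Set V) ⊆ Λ := by
    rw [hΛ]; push_cast
    exact Set.subset_union_right.trans Set.subset_union_left
  have sC : (C : Set V) ⊆ Λ := by
    rw [hΛ]; push_cast
    exact Set.subset_union_left.trans Set.subset_union_right
  have sD : (D : Set V) ⊆ Λ := by
    rw [hΛ]; push_cast
    exact Set.subset_union_right.trans Set.subset_union_right
  have eA := dA.mono sA
  have eB := dB.mono sB
  have eC := dC.mono sC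
  have eD := dD.mono sD
  have inter : ∀ {F G : Set (V → Bool)}, Dep F (Λ : Set V) → Dep G (Λ : Set V) →
      Dep (F ∩ G) (Λ : Set V) := by
    intro F G hF hG b b' hb
    rw [Set.mem_inter_iff, Set.mem_inter_iff, hF b b' hb, hG b b' hb]
  rw [Q_eq ρ (inter eA eB) (inter eA eB), Q_eq ρ eC eC, Q_eq ρ eD eD,
    Q_eq ρ (inter (inter eA eB) (inter eC eD)) (inter (inter eA eB) (inter eC eD))]
  have key := Bgen_ex2 ρ Sp Sm hpm Λ
    (fun w => ind Ep (fun v => (w v).1) * ind Ep (fun v => (w v).2))
    (fun w => ind Em (fun v => (w v).1) * ind Em (fun v => (w v).2))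
    (fun w => ind Up (fun v => (w v).1) * ind Up (fun v => (w v).2))
    (fun w => ind Um (fun v => (w v).1) * ind Um (fun v => (w v).2))
    (lf_pair eA.lf eA.lf) (lf_pair eB.lf eB.lf) (lf_pair eC.lf eC.lf) (lf_pair eD.lf eD.lf)
    (fun w => mul_nonneg (ind_nonneg _ _) (ind_nonneg _ _))
    (fun w => mul_nonneg (ind_nonneg _ _) (ind_nonneg _ _))
    (fun w => mul_nonneg (ind_nonneg _ _) (ind_nonneg _ _))
    (fun w => mul_nonneg (ind_nonneg _ _) (ind_nonneg _ _))
    (Bgen_Ind_pair dA fun v hv hvA => by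
      rcases hA hvA with h | h
      · exact Set.disjoint_left.1 hSm h hv
      · exact Set.disjoint_left.1 hpm h hv)
    (Bgen_Ind_pair dB fun v hv hvB => by
      rcases hB hvB with h | h
      · exact Set.disjoint_left.1 hSp h hv
      · exact Set.disjoint_left.1 hpm hv h)
    (Bgen_Ind_pair dC fun v hv hvC => hv (hC hvC))
    (Bgen_Ind_pair dD fun v hv hvD => hv (hD hvD))
    (Bgen_Inc_pair mEp Sp) (Bgen_Inc_pair mUp Sp) (Bgen_Inc_pair' mEm Sm) (Bgen_Inc_pair' mUm Sm)
  have r1 : bf ρ (ind (Ep ∩ Em)) (ind (Ep ∩ Em)) = ex2 ρ (fun w =>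
      ind Ep (fun v => (w v).1) * ind Ep (fun v => (w v).2) *
        (ind Em (fun v => (w v).1) * ind Em (fun v => (w v).2))) := by
    unfold bf
    congr 1; funext w
    rw [ind_inter, ind_inter]; ring
  have r2 : bf ρ (ind (Ep ∩ Em ∩ (Up ∩ Um))) (ind (Ep ∩ Em ∩ (Up ∩ Um))) = ex2 ρ (fun w =>
      ind Ep (fun v => (w v).1) * ind Ep (fun v => (w v).2) *
        (ind Em (fun v => (w v).1) * ind Em (fun v => (w v).2)) *
        (ind Up (fun v => (w v).1) * ind Up (fun v => (w v).2) *
          (ind Um (fun v => (w v).1) * ind Um (fun v => (w v).2)))) := by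
    unfold bf
    congr 1; funext w
    rw [ind_inter, ind_inter, ind_inter, ind_inter, ind_inter, ind_inter]; ring
  rw [r1, r2]
  exact key

end DP
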