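import Pool.Agent.helper95.DP.SpecH

/-!
# Project dp, module HLA: law of the clocks and coins of a dynamical percolation
-/

namespace DP

open MeasureTheory ProbabilityTheory

theorem HLA_one {Ω : Type} [MeasurableSpace Ω] (P : Measure Ω) [IsProbabilityMeasure P]
    (τ : DynPerc.Edge → ℕ → Ω → ℝ) (U : DynPerc.Edge → ℕ → Ω → Bool)
    (h : DynPerc.IsDynPerc P τ U) (e : DynPerc.Edge) :
    P.map (fun x => ((fun k => τ e k x), (fun k => U e k x)) : Ω → Path) = nu := by
  have h1 : P.map (fun x k => τ e k x) = nuT := by
    rw [(h.indep_wait e).map_fun_eq_infinitePi_map (h.measurable_wait e)]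
    unfold nuT
    congr 1
    funext k
    exact h.law_wait e k
  have h2 : P.map (fun x k => U e k x) = nuU := by
    rw [(h.indep_coin e).map_fun_eq_infinitePi_map (h.measurable_coin e)]
    unfold nuU
    congr 1
    funext k
    exact h.law_coin e k
  have m1 : Measurable (fun x k => τ e k x) := measurable_pi_iff.2 (h.measurable_wait e)
  have m2 : Measurable (fun x k => U e k x) := measurable_pi_iff.2 (h.measurable_coin e)
  have h3 := (indepFun_iff_map_prod_eq_prod_map_map m1.aemeasurable m2.aemeasurable).1
    (h.indep_wait_coin e)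
  rw [h1, h2] at h3
  exact h3

theorem HLA : HLA_stmt := by
  intro Ω _ P _ τ U h
  have m : ∀ e, Measurable (fun x => ((fun k => τ e k x), (fun k => U e k x)) : Ω → Path) :=
    fun e => (measurable_pi_iff.2 (h.measurable_wait e)).prodMk
      (measurable_pi_iff.2 (h.measurable_coin e))
  have h1 := h.indep_edges.map_fun_eq_infinitePi_map m
  refine h1.trans ?_
  congr 1
  funext e
  exact HLA_one P τ U h e

end DP
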